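import Pool.Agent.helper19.MX.SpecA

set_option autoImplicit false

/-! # Row mx:CST: the step for the character sums of certified forms -/

namespace MX

open Pool.Agent.helper53.AU AN
open scoped Classical Topology
open Finset (range powerset Icc)

theorem CST (hPS1 : PS1_stmt) (hFBP : FBP_stmt) (hFBU : FBU_stmt) (hHLF : HLF_stmt) : CST_stmt := by
  intro K _ _ _ h hh b d β y hd hβ hy
  obtain ⟨p1, p2, p3, p4, p5, p6⟩ := hPS1 K
  have e1 : ∀ x : K, ps (fb (h + 1) (Ud h b d) x) = ps (fb h b (x ^ 2 + d * x)) :=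
    fun x => hFBU K h hh b d x
  have e2 : ∀ z : K, ps (fb h b (z + β)) = ps (fb h b z) * ps (z * (d ^ 2)⁻¹) := by
    intro z
    rw [hFBP K h b z β, ← hy, p3 y, mul_one]
    congr 1
    have e3 : z ^ (2 ^ h) * PP h b β = (z * (d ^ 2)⁻¹) ^ (2 ^ h) := by
      have e4 : PP h b β = ((d ^ 2) ^ (2 ^ h))⁻¹ := by
        rw [← pow_mul, ← pow_succ']
        exact eq_inv_of_mul_eq_one_left hβ
      rw [e4, mul_pow, inv_pow]
    rw [e3, p4]
  rw [Finset.sum_congr rfl fun x _ => e1 x, hHLF K d hd (fun z => ps (fb h b z))]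
  have e5 : ∀ z : K, ps (fb h b z) * (1 + ps (z * (d ^ 2)⁻¹)) =
      ps (fb h b z) + ps (fb h b (z + β)) := by
    intro z
    rw [e2]
    ring
  rw [Finset.sum_congr rfl fun z _ => e5 z, Finset.sum_add_distrib, two_mul]
  congr 1
  exact Equiv.sum_comp (Equiv.addRight β) (fun z => ps (fb h b z))

end MX
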