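import Pool.Agent.helper19.MX.SpecD

set_option autoImplicit false

/-! # Row mx:QU1: the place of a quadratic extension above an odd pole -/

namespace MX

open Pool.Agent.helper53.AU AN
open scoped Classical Topology
open Finset (range powerset Icc)

section

variable {k E : Type} [Field k] [Field E] [Algebra k E]

/-- the norm form -/
def QU1_N (φ a b : E) : E := a ^ 2 - a * b - b ^ 2 * φ

/-- the comparison with `n` -/
def QU1_G (P : Place k E) (m : ℕ) (n : ℤ) (a b : E) : Prop :=
  (a = 0 ∨ n ≤ 2 * P.ord a) ∧ (b = 0 ∨ n ≤ 2 * P.ord b - m)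

theorem QU1_b0 (P : Place k E) (φ a : E) (ha : a ≠ 0) :
    QU1_N φ a 0 ≠ 0 ∧ P.ord (QU1_N φ a 0) = 2 * P.ord a := by
  have h : QU1_N φ a 0 = a ^ 2 := by unfold QU1_N; ring
  rw [h, P.ord_pow ha]
  exact ⟨pow_ne_zero 2 ha, by push_cast; ring⟩

theorem QU1_a0 (P : Place k E) (φ b : E) (m : ℕ) (hφ : φ ≠ 0) (hord : P.ord φ = -(m : ℤ))
    (hb : b ≠ 0) : QU1_N φ 0 b ≠ 0 ∧ P.ord (QU1_N φ 0 b) = 2 * P.ord b - m := by
  have h : QU1_N φ 0 b = -(b ^ 2 * φ) := by unfold QU1_N; ring
  rw [h, P.ord_neg, P.ord_mul _ _ (pow_ne_zero 2 hb) hφ, P.ord_pow hb, hord]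
  exact ⟨neg_ne_zero.2 (mul_ne_zero (pow_ne_zero 2 hb) hφ), by push_cast; ring⟩

theorem QU1_ab (P : Place k E) (φ a b : E) (m : ℕ) (hm : Odd m) (hφ : φ ≠ 0)
    (hord : P.ord φ = -(m : ℤ)) (ha : a ≠ 0) (hb : b ≠ 0) :
    QU1_N φ a b ≠ 0 ∧ P.ord (QU1_N φ a b) = min (2 * P.ord a) (2 * P.ord b - m) := by
  obtain ⟨j, hj⟩ := hm
  have h1 : P.ord (a ^ 2) = 2 * P.ord a := by rw [P.ord_pow ha]; push_cast; ring
  have h2 : P.ord (-(b ^ 2 * φ)) = 2 * P.ord b - m := by
    rw [P.ord_neg, P.ord_mul _ _ (pow_ne_zero 2 hb) hφ, P.ord_pow hb, hord]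
    push_cast; ring
  have h3 : P.ord (-(a * b)) = P.ord a + P.ord b := by
    rw [P.ord_neg, P.ord_mul _ _ ha hb]
  have hj' : (m : ℤ) = 2 * j + 1 := by exact_mod_cast hj
  rcases lt_or_ge (2 * P.ord a) (2 * P.ord b - m) with h | h
  · have e : QU1_N φ a b = a ^ 2 + (-(a * b) + -(b ^ 2 * φ)) := by unfold QU1_N; ring
    have g : P.Ge (P.ord (a ^ 2) + 1) (-(a * b) + -(b ^ 2 * φ)) := by
      apply Place.Ge.add
      · right; rw [h1, h3]; omega
      · right; rw [h1, h2]; omega
    have := Place.ord_add_eq (pow_ne_zero 2 ha) g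
    rw [← e, h1] at this
    rw [min_eq_left h.le]
    exact this
  · have h' : 2 * P.ord b - m < 2 * P.ord a := by omega
    have e : QU1_N φ a b = -(b ^ 2 * φ) + (a ^ 2 + -(a * b)) := by unfold QU1_N; ring
    have g : P.Ge (P.ord (-(b ^ 2 * φ)) + 1) (a ^ 2 + -(a * b)) := by
      apply Place.Ge.add
      · right; rw [h1, h2]; omega
      · right; rw [h3, h2]; omega
    have := Place.ord_add_eq (neg_ne_zero.2 (mul_ne_zero (pow_ne_zero 2 hb) hφ)) g
    rw [← e, h2] at this
    rw [min_eq_right h]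
    exact this

theorem QU1_ne (P : Place k E) (φ a b : E) (m : ℕ) (hm : Odd m) (hφ : φ ≠ 0)
    (hord : P.ord φ = -(m : ℤ)) (hab : ¬ (a = 0 ∧ b = 0)) : QU1_N φ a b ≠ 0 := by
  by_cases ha : a = 0
  · have hb : b ≠ 0 := fun hb => hab ⟨ha, hb⟩
    rw [ha]
    exact (QU1_a0 P φ b m hφ hord hb).1
  by_cases hb : b = 0
  · rw [hb]
    exact (QU1_b0 P φ a ha).1
  exact (QU1_ab P φ a b m hm hφ hord ha hb).1

theorem QU1_le (P : Place k E) (φ a b : E) (m : ℕ) (hm : Odd m) (hφ : φ ≠ 0)
    (hord : P.ord φ = -(m : ℤ)) (hab : ¬ (a = 0 ∧ b = 0)) (n : ℤ) :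
    n ≤ P.ord (QU1_N φ a b) ↔ QU1_G P m n a b := by
  unfold QU1_G
  by_cases ha : a = 0
  · have hb : b ≠ 0 := fun hb => hab ⟨ha, hb⟩
    rw [ha, (QU1_a0 P φ b m hφ hord hb).2]
    simp [hb]
  by_cases hb : b = 0
  · rw [hb, (QU1_b0 P φ a ha).2]
    simp [ha]
  rw [(QU1_ab P φ a b m hm hφ hord ha hb).2, le_min_iff]
  simp [ha, hb]

theorem QU1_Gadd (P : Place k E) (m : ℕ) (n : ℤ) (a b a' b' : E) (h : QU1_G P m n a b)
    (h' : QU1_G P m n a' b') : QU1_G P m n (a + a') (b + b') := by
  have key : ∀ (c : ℤ) (x x' : E), (x = 0 ∨ n ≤ 2 * P.ord x - c) → (x' = 0 ∨ n ≤ 2 * P.ord x' - c) →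
      (x + x' = 0 ∨ n ≤ 2 * P.ord (x + x') - c) := by
    intro c x x' hx hx'
    by_cases h1 : x = 0
    · rw [h1, zero_add]; exact hx'
    by_cases h2 : x' = 0
    · rw [h2, add_zero]; exact hx
    by_cases h3 : x + x' = 0
    · exact Or.inl h3
    right
    have h4 := P.ord_add x x' h1 h2 h3
    have h5 := hx.resolve_left h1
    have h6 := hx'.resolve_left h2
    rcases min_le_iff.1 h4 with h7 | h7 <;> omega
  refine ⟨?_, key m b b' h.2 h'.2⟩
  have := key 0 a a' (by rw [sub_zero]; exact h.1) (by rw [sub_zero]; exact h'.1)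
  rwa [sub_zero] at this

end

theorem QU1_ex {k E F : Type} [Field k] [Field E] [Field F] [Algebra k E] [Algebra k F]
    [Algebra E F] [IsScalarTower k E F] (y : F) (φ : E) (P : Place k E) (m : ℕ)
    (hy : y ^ 2 + y = algebraMap E F φ) (hm : Odd m) (hφ : φ ≠ 0) (hord : P.ord φ = -(m : ℤ))
    (hex : ∀ z : F, ∃ a b : E, z = algebraMap E F a + algebraMap E F b * y)
    (huni : ∀ a b : E, algebraMap E F a + algebraMap E F b * y = 0 → a = 0 ∧ b = 0) :
    ∃ Q : Place k F, ∀ a b : E,
      Q.ord (algebraMap E F a + algebraMap E F b * y) = P.ord (QU1_N φ a b) := by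
  choose A B hAB using hex
  have hco : ∀ a b : E, A (algebraMap E F a + algebraMap E F b * y) = a ∧
      B (algebraMap E F a + algebraMap E F b * y) = b := by
    intro a b
    have h1 := hAB (algebraMap E F a + algebraMap E F b * y)
    have h2 := huni (a - A (algebraMap E F a + algebraMap E F b * y))
      (b - B (algebraMap E F a + algebraMap E F b * y)) (by
        rw [map_sub, map_sub]
        linear_combination h1)
    exact ⟨(sub_eq_zero.1 h2.1).symm, (sub_eq_zero.1 h2.2).symm⟩
  have hA : ∀ a b : E, A (algebraMap E F a + algebraMap E F b * y) = a := fun a b => (hco a b).1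
  have hB : ∀ a b : E, B (algebraMap E F a + algebraMap E F b * y) = b := fun a b => (hco a b).2
  have hne : ∀ z : F, z ≠ 0 → ¬ (A z = 0 ∧ B z = 0) := by
    rintro z hz ⟨h1, h2⟩
    apply hz
    rw [hAB z, h1, h2, map_zero, zero_mul, add_zero]
  have hmul : ∀ z w : F, A (z * w) = A z * A w + B z * B w * φ ∧
      B (z * w) = A z * B w + A w * B z - B z * B w := by
    intro z w
    have e : z * w = algebraMap E F (A z * A w + B z * B w * φ) +
        algebraMap E F (A z * B w + A w * B z - B z * B w) * y := by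
      have e1 := hAB z
      have e2 := hAB w
      have e3 : y ^ 2 = algebraMap E F φ - y := by rw [← hy]; ring
      calc z * w = (algebraMap E F (A z) + algebraMap E F (B z) * y) *
            (algebraMap E F (A w) + algebraMap E F (B w) * y) := by rw [← e1, ← e2]
        _ = algebraMap E F (A z) * algebraMap E F (A w) +
            (algebraMap E F (A z) * algebraMap E F (B w) +
              algebraMap E F (A w) * algebraMap E F (B z)) * y +
            algebraMap E F (B z) * algebraMap E F (B w) * y ^ 2 := by ring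
        _ = _ := by
          rw [e3]
          simp only [map_add, map_sub, map_mul]
          ring
    rw [e, hA, hB]
    exact ⟨rfl, rfl⟩
  have hadd : ∀ z w : F, A (z + w) = A z + A w ∧ B (z + w) = B z + B w := by
    intro z w
    have e : z + w = algebraMap E F (A z + A w) + algebraMap E F (B z + B w) * y := by
      have e1 := hAB z
      have e2 := hAB w
      rw [map_add, map_add]
      linear_combination e1 + e2
    rw [e, hA, hB]
    exact ⟨rfl, rfl⟩
  have h0 : A 0 = 0 ∧ B 0 = 0 := by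
    have := hco 0 0
    rw [map_zero, zero_mul, add_zero] at this
    exact this
  have hc : ∀ c : k, A (algebraMap k F c) = algebraMap k E c ∧ B (algebraMap k F c) = 0 := by
    intro c
    have := hco (algebraMap k E c) 0
    rwa [map_zero, zero_mul, add_zero, ← IsScalarTower.algebraMap_apply k E F] at this
  refine ⟨{ ord := fun z => P.ord (QU1_N φ (A z) (B z))
            ord_zero := ?_
            ord_mul := ?_
            ord_add := ?_
            ord_const := ?_
            exists_uniformizer := ?_ }, ?_⟩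
  · rw [h0.1, h0.2]
    unfold QU1_N
    simp [P.ord_zero]
  · intro z w hz hw
    rw [(hmul z w).1, (hmul z w).2]
    have e : QU1_N φ (A z * A w + B z * B w * φ) (A z * B w + A w * B z - B z * B w) =
        QU1_N φ (A z) (B z) * QU1_N φ (A w) (B w) := by
      unfold QU1_N
      ring
    rw [e, P.ord_mul _ _ (QU1_ne P φ _ _ m hm hφ hord (hne z hz))
      (QU1_ne P φ _ _ m hm hφ hord (hne w hw))]
  · intro z w hz hw hzw
    rw [QU1_le P φ _ _ m hm hφ hord (hne _ hzw), (hadd z w).1, (hadd z w).2]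
    apply QU1_Gadd
    · rw [← QU1_le P φ _ _ m hm hφ hord (hne z hz)]
      exact min_le_left _ _
    · rw [← QU1_le P φ _ _ m hm hφ hord (hne w hw)]
      exact min_le_right _ _
  · intro c hc0
    rw [(hc c).1, (hc c).2, (QU1_b0 P φ _ (by
      rw [Ne, map_eq_zero]
      exact hc0)).2, P.ord_const c hc0]
    rfl
  · obtain ⟨t, ht0, ht⟩ := P.exists_uniformizer
    obtain ⟨j, hj⟩ := hm
    have hj' : (m : ℤ) = 2 * j + 1 := by exact_mod_cast hj
    refine ⟨algebraMap E F 0 + algebraMap E F (t ^ (j + 1)) * y, ?_, ?_⟩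
    · intro h
      exact pow_ne_zero (j + 1) ht0 (huni _ _ h).2
    · rw [hA, hB, (QU1_a0 P φ _ m hφ hord (pow_ne_zero (j + 1) ht0)).2, P.ord_pow ht0, ht, hj']
      push_cast
      ring
  · intro a b
    change P.ord (QU1_N φ (A _) (B _)) = _
    rw [hA, hB]

theorem QU1 (hQEL : QEL_stmt) : QU1_stmt := by
  intro k E F _ _ _ _ _ _ _ _ y φ P m hy htop hP hm hφ hord
  have hmodd := hm
  obtain ⟨j, hj⟩ := hm
  have hj' : (m : ℤ) = 2 * j + 1 := by exact_mod_cast hj
  have hnot : ∀ w : E, w ^ 2 + w ≠ φ := by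
    intro w hw
    by_cases hw0 : w = 0
    · rw [hw0] at hw
      apply hφ
      rw [← hw]
      ring
    rcases le_or_gt 0 (P.ord w) with h | h
    · have h1 : P.Ge 0 (w ^ 2 + w) := by
        apply Place.Ge.add
        · right; rw [P.ord_pow hw0]; positivity
        · right; exact h
      rw [hw] at h1
      have h2 := h1.le hφ
      omega
    · have h1 : P.ord (w ^ 2) = 2 * P.ord w := by rw [P.ord_pow hw0]; push_cast; ring
      have h2 : P.Ge (P.ord (w ^ 2) + 1) w := by
        right; rw [h1]; omega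
      have h3 := Place.ord_add_eq (pow_ne_zero 2 hw0) h2
      rw [hw, h1, hord] at h3
      have := h3.2
      omega
  obtain ⟨_, hex, huni⟩ := hQEL E F y φ hy htop hnot
  obtain ⟨Q, hQ⟩ := QU1_ex y φ P m hy hmodd hφ hord hex huni
  have hGe : ∀ (n : ℤ) (a b : E), Q.Ge n (algebraMap E F a + algebraMap E F b * y) ↔
      QU1_G P m n a b := by
    intro n a b
    by_cases hab : a = 0 ∧ b = 0
    · rw [hab.1, hab.2, map_zero, zero_mul, add_zero]
      exact ⟨fun _ => ⟨Or.inl rfl, Or.inl rfl⟩, fun _ => Or.inl rfl⟩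
    · rw [← QU1_le P φ a b m hmodd hφ hord hab, ← hQ]
      exact Place.ge_iff fun h => hab (huni a b h)
  refine ⟨Q, ?_, ?_, ?_, ?_⟩
  · intro f hf
    obtain ⟨a, b, hab⟩ := hex f
    rw [hab, hGe] at hf
    have h1 : P.Ge 0 a := by
      rcases hf.1 with h | h
      · exact Or.inl h
      · right; omega
    obtain ⟨c, hc⟩ := hP a h1
    refine ⟨c, ?_⟩
    have e : f - algebraMap k F c = algebraMap E F (a - algebraMap k E c) + algebraMap E F b * y := by
      rw [hab, map_sub, ← IsScalarTower.algebraMap_apply k E F]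
      ring
    rw [e, hGe]
    constructor
    · rcases hc with h | h
      · exact Or.inl h
      · right; omega
    · rcases hf.2 with h | h
      · exact Or.inl h
      · right; omega
  · intro a
    have h := hQ a 0
    rw [map_zero, zero_mul, add_zero] at h
    rw [h]
    by_cases ha : a = 0
    · rw [ha, P.ord_zero]
      unfold QU1_N
      simp [P.ord_zero]
    · exact (QU1_b0 P φ a ha).2
  · intro b hb
    have h := hQ 0 b
    rw [map_zero, zero_add] at h
    rw [h]
    exact (QU1_a0 P φ b m hφ hord hb).2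
  · intro a b ha hb
    rw [hQ]
    exact (QU1_ab P φ a b m hmodd hφ hord ha hb).2

end MX
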